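import Pool.Agent.W2helper74.SOS.Stm2

/-!
# MP_ce7760_an, piece K9 : `Base → Crit → NF → Cubic` (helper47)

A cubic example without common prime factor has no common zeros (`Base`), and at a maximum point of
`∑ |p_j|²` on the unit sphere the first order condition gives the hypotheses of `Crit`.
-/

open MvPolynomial

namespace Pool.Agent.W2helper47.SOS

open Pool.Agent.W2helper74.SOS

theorem eval_lf {n : ℕ} (w v : Fin n → ℂ) : eval v (lf w) = ∑ k, w k * v k := by
  simp [lf]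

theorem eval_res {n j : ℕ} (T : Matrix (Fin n) (Fin j) ℂ) (p : Pol n) (v : Fin j → ℂ) :
    eval v (res T p) = eval (T.mulVec v) p := by
  have h : (eval v).comp (res T).toRingHom = eval (T.mulVec v) := by
    apply MvPolynomial.ringHom_ext
    · intro r
      simp [res]
    · intro i
      simp [res, eval_lf, Matrix.mulVec, dotProduct]
  exact congrArg (fun f => f p) h

theorem eval_smul_hom {n N : ℕ} {p : Pol n} (hp : p.IsHomogeneous N) (s : ℂ) (w : Fin n → ℂ) :
    eval (s • w) p = s ^ N * eval w p := by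
  rw [eval_eq', eval_eq', Finset.mul_sum]
  apply Finset.sum_congr rfl
  intro d hd
  have h1 : ∑ i, d i = N := by
    have h2 := hp (mem_support_iff.1 hd)
    rw [← h2]
    simp [Finsupp.weight_apply, Finsupp.sum_fintype]
  simp only [Pi.smul_apply, smul_eq_mul, mul_pow, Finset.prod_mul_distrib,
    Finset.prod_pow_eq_pow_sum, h1]
  ring

/-- the squared norm -/
noncomputable def nsq {n : ℕ} (w : Fin n → ℂ) : ℝ := ∑ k, ‖w k‖ ^ 2

theorem nsq_eq {n : ℕ} (w : Fin n → ℂ) : ((nsq w : ℝ) : ℂ) = ∑ k, w k * star (w k) := by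
  unfold nsq
  push_cast
  apply Finset.sum_congr rfl
  intro k _
  exact (Complex.mul_conj' (w k)).symm

theorem nsq_smul {n : ℕ} (s : ℝ) (w : Fin n → ℂ) : nsq ((s : ℂ) • w) = s ^ 2 * nsq w := by
  unfold nsq
  rw [Finset.mul_sum]
  apply Finset.sum_congr rfl
  intro k _
  simp [mul_pow]

theorem nsq_nonneg {n : ℕ} (w : Fin n → ℂ) : 0 ≤ nsq w :=
  Finset.sum_nonneg fun _ _ => by positivity

theorem nsq_pos {n : ℕ} {w : Fin n → ℂ} (hw : w ≠ 0) : 0 < nsq w := by
  obtain ⟨k, hk⟩ := Function.ne_iff.1 hw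
  have h1 : 0 < ‖w k‖ ^ 2 := by
    have : 0 < ‖w k‖ := norm_pos_iff.2 hk
    positivity
  exact lt_of_lt_of_le h1 (Finset.single_le_sum (f := fun k => ‖w k‖ ^ 2)
    (fun _ _ => by positivity) (Finset.mem_univ k))

theorem nsq_unitary {n : ℕ} (U : Matrix (Fin n) (Fin n) ℂ) (hU : U.conjTranspose * U = 1)
    (v : Fin n → ℂ) : nsq (U.mulVec v) = nsq v := by
  have h : ((nsq (U.mulVec v) : ℝ) : ℂ) = ((nsq v : ℝ) : ℂ) := by
    rw [nsq_eq, nsq_eq]
    have e1 : ∀ w : Fin n → ℂ, ∑ k, w k * star (w k) = star w ⬝ᵥ w := by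
      intro w
      simp only [dotProduct, Pi.star_apply]
      exact Finset.sum_congr rfl fun k _ => mul_comm _ _
    rw [e1, e1, Matrix.star_mulVec, Matrix.dotProduct_mulVec, Matrix.vecMul_vecMul, hU,
      Matrix.vecMul_one]
  exact_mod_cast h

theorem norm_low (c u : ℂ) : ‖c‖ ^ 2 + 2 * (u * star c).re ≤ ‖c + u‖ ^ 2 := by
  rw [Complex.sq_norm, Complex.sq_norm, Complex.normSq_apply, Complex.normSq_apply]
  have e2 : (u * star c).re = u.re * c.re + u.im * c.im := by
    rw [Complex.mul_re]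
    simp
  rw [e2, Complex.add_re, Complex.add_im]
  nlinarith [sq_nonneg u.re, sq_nonneg u.im]

/-- first order condition at a maximum -/
theorem first_order (c a b e : Fin 4 → ℂ)
    (h : ∀ x : ℂ, ∑ j, ‖c j + a j * x + b j * x ^ 2 + e j * x ^ 3‖ ^ 2 ≤
      (‖x‖ ^ 2 + 1) ^ 3 * ∑ j, ‖c j‖ ^ 2) : ∑ j, a j * star (c j) = 0 := by
  set A : ℂ := ∑ j, a j * star (c j) with hA
  set B : ℂ := ∑ j, b j * star A ^ 2 * star (c j) with hB
  set E : ℂ := ∑ j, e j * star A ^ 3 * star (c j) with hE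
  set G : ℝ := ∑ j, ‖c j‖ ^ 2 with hG
  have key : ∀ s : ℝ, 2 * ‖A‖ ^ 2 * s + 2 * B.re * s ^ 2 + 2 * E.re * s ^ 3
      - ((1 + ‖A‖ ^ 2 * s ^ 2) ^ 3 - 1) * G ≤ 0 := by
    intro s
    have h1 := h ((s : ℂ) * star A)
    have h2 : ∀ j, ‖c j‖ ^ 2 + 2 * ((a j * ((s : ℂ) * star A) + b j * ((s : ℂ) * star A) ^ 2
        + e j * ((s : ℂ) * star A) ^ 3) * star (c j)).re ≤
        ‖c j + a j * ((s : ℂ) * star A) + b j * ((s : ℂ) * star A) ^ 2 +
          e j * ((s : ℂ) * star A) ^ 3‖ ^ 2 := by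
      intro j
      set u := a j * ((s : ℂ) * star A) + b j * ((s : ℂ) * star A) ^ 2
        + e j * ((s : ℂ) * star A) ^ 3 with hu
      have e1 : c j + a j * ((s : ℂ) * star A) + b j * ((s : ℂ) * star A) ^ 2 +
          e j * ((s : ℂ) * star A) ^ 3 = c j + u := by rw [hu]; ring
      rw [e1]
      exact norm_low (c j) u
    have h3 := (Finset.sum_le_sum fun j (_ : j ∈ Finset.univ) => h2 j).trans h1
    rw [Finset.sum_add_distrib, ← Finset.mul_sum, ← Complex.re_sum] at h3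
    have e3 : ∑ j, (a j * ((s : ℂ) * star A) + b j * ((s : ℂ) * star A) ^ 2
        + e j * ((s : ℂ) * star A) ^ 3) * star (c j) =
        (s : ℂ) * (star A * A) + (s : ℂ) ^ 2 * B + (s : ℂ) ^ 3 * E := by
      rw [hB, hE]
      nth_rewrite 5 [hA]
      simp only [Finset.mul_sum, ← Finset.sum_add_distrib]
      exact Finset.sum_congr rfl fun j _ => by ring
    have e4 : ((s : ℂ) * (star A * A) + (s : ℂ) ^ 2 * B + (s : ℂ) ^ 3 * E).re =
        s * ‖A‖ ^ 2 + s ^ 2 * B.re + s ^ 3 * E.re := by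
      have e5 : star A * A = ((‖A‖ ^ 2 : ℝ) : ℂ) := by
        push_cast
        exact Complex.conj_mul' A
      rw [e5, ← Complex.ofReal_pow, ← Complex.ofReal_pow, Complex.add_re, Complex.add_re,
        Complex.re_ofReal_mul, Complex.re_ofReal_mul, Complex.re_ofReal_mul, Complex.ofReal_re]
    rw [e3, e4] at h3
    have e6 : ‖(s : ℂ) * star A‖ ^ 2 = ‖A‖ ^ 2 * s ^ 2 := by
      rw [norm_mul, norm_star, Complex.norm_real, mul_pow, Real.norm_eq_abs, sq_abs, mul_comm]
    rw [e6, ← hG] at h3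
    nlinarith [h3]
  have hd : HasDerivAt (fun s : ℝ => 2 * ‖A‖ ^ 2 * s + 2 * B.re * s ^ 2 + 2 * E.re * s ^ 3
      - ((1 + ‖A‖ ^ 2 * s ^ 2) ^ 3 - 1) * G) (2 * ‖A‖ ^ 2) 0 := by
    have h1 := (hasDerivAt_id (0 : ℝ)).const_mul (2 * ‖A‖ ^ 2)
    have h2 := (hasDerivAt_pow 2 (0 : ℝ)).const_mul (2 * B.re)
    have h3 := (hasDerivAt_pow 3 (0 : ℝ)).const_mul (2 * E.re)
    have h4 := (((((hasDerivAt_pow 2 (0 : ℝ)).const_mul (‖A‖ ^ 2)).const_add 1).pow 3).sub_const
      1).mul_const G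
    have h5 := ((h1.add h2).add h3).sub h4
    have h6 : (2 * ‖A‖ ^ 2 * 1 + 2 * B.re * (((2 : ℕ) : ℝ) * 0 ^ (2 - 1)) +
        2 * E.re * (((3 : ℕ) : ℝ) * 0 ^ (3 - 1)) -
        (((3 : ℕ) : ℝ) * (1 + ‖A‖ ^ 2 * 0 ^ 2) ^ (3 - 1) *
          (‖A‖ ^ 2 * (((2 : ℕ) : ℝ) * 0 ^ (2 - 1)))) * G) = 2 * ‖A‖ ^ 2 := by
      norm_num
    rw [h6] at h5
    exact h5
  have hmax : IsLocalMax (fun s : ℝ => 2 * ‖A‖ ^ 2 * s + 2 * B.re * s ^ 2 + 2 * E.re * s ^ 3
      - ((1 + ‖A‖ ^ 2 * s ^ 2) ^ 3 - 1) * G) 0 := by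
    apply Filter.Eventually.of_forall
    intro s
    have := key s
    simpa using this
  have h0 := hmax.hasDerivAt_eq_zero hd
  have h5 : ‖A‖ = 0 := by
    have : ‖A‖ ^ 2 = 0 := by linarith
    exact pow_eq_zero_iff (two_ne_zero) |>.1 this
  exact norm_eq_zero.1 h5

/-- the image of a coordinate under a linear change of variables is prime -/
theorem prime_res {n : ℕ} (U W : Matrix (Fin n) (Fin n) ℂ) (h1 : U * W = 1) (h2 : W * U = 1)
    (k : Fin n) : Prime (res W (X k : Pol n)) := by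
  have hcomp : ∀ (A B : Matrix (Fin n) (Fin n) ℂ), B * A = 1 → ∀ p : Pol n,
      res A (res B p) = p := by
    intro A B hAB p
    apply MvPolynomial.funext
    intro v
    rw [eval_res, eval_res, Matrix.mulVec_mulVec, hAB, Matrix.one_mulVec]
  let e : Pol n ≃ₐ[ℂ] Pol n := AlgEquiv.ofAlgHom (res W) (res U)
    (AlgHom.ext fun p => hcomp W U h1 p) (AlgHom.ext fun p => hcomp U W h2 p)
  exact (MulEquiv.prime_iff e).2 MvPolynomial.X_prime

theorem cubic (hB : Base) (hC : Crit) (hN : NF) : Cubic := by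
  intro r d
  by_contra hno
  push Not at hno
  have h1 : ∀ ζ : Fin 3 → ℂ, ∑ k, ζ k * star (ζ k) = 1 → ∃ j, eval ζ (d.p j) ≠ 0 := by
    intro ζ hζ
    by_contra hz
    push Not at hz
    obtain ⟨U, c, l, q, t, hU, hUζ, hS, hE⟩ := hN r d ζ hζ
    have hU2 : U * U.conjTranspose = 1 := mul_eq_one_comm.1 hU
    have hc : c = 0 := by
      funext j
      have := hE j 0 0 1
      rw [hUζ, hz j] at this
      simpa [q1, q2, q3] using this.symm
    subst hc
    refine hB l q t hS ?_ ?_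
    · intro ht
      subst ht
      obtain ⟨j, hj⟩ := hno (res U.conjTranspose (X 2))
        (prime_res U U.conjTranspose hU2 hU 2)
      apply hj
      refine ⟨res U.conjTranspose (X 2 * (C (l j 0) * X 0 + C (l j 1) * X 1) +
        (C (q j 0) * X 0 ^ 2 + C (q j 1) * X 0 * X 1 + C (q j 2) * X 1 ^ 2)), ?_⟩
      apply MvPolynomial.funext
      intro v
      have e1 := hE j (U.conjTranspose.mulVec v 0) (U.conjTranspose.mulVec v 1)
        (U.conjTranspose.mulVec v 2)
      have e2 : ![U.conjTranspose.mulVec v 0, U.conjTranspose.mulVec v 1,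
        U.conjTranspose.mulVec v 2] = U.conjTranspose.mulVec v := by
        funext i
        fin_cases i <;> rfl
      rw [e2, Matrix.mulVec_mulVec, hU2, Matrix.one_mulVec] at e1
      rw [e1, map_mul, eval_res, eval_res]
      simp [q1, q2, q3]
      ring
    · intro v hl hq ht
      have e1 : ∑ j, v j • d.p j = 0 := by
        apply MvPolynomial.funext
        intro w
        have e2 : ![U.conjTranspose.mulVec w 0, U.conjTranspose.mulVec w 1,
          U.conjTranspose.mulVec w 2] = U.conjTranspose.mulVec w := by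
          funext i
          fin_cases i <;> rfl
        have e3 : ∀ j, eval w (d.p j) = (U.conjTranspose.mulVec w 2) ^ 3 * (0 : Fin 4 → ℂ) j +
            (U.conjTranspose.mulVec w 2) ^ 2 *
              q1 (l j) (U.conjTranspose.mulVec w 0) (U.conjTranspose.mulVec w 1) +
            (U.conjTranspose.mulVec w 2) *
              q2 (q j) (U.conjTranspose.mulVec w 0) (U.conjTranspose.mulVec w 1) +
            q3 (t j) (U.conjTranspose.mulVec w 0) (U.conjTranspose.mulVec w 1) := by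
          intro j
          have := hE j (U.conjTranspose.mulVec w 0) (U.conjTranspose.mulVec w 1)
            (U.conjTranspose.mulVec w 2)
          rw [e2, Matrix.mulVec_mulVec, hU2, Matrix.one_mulVec] at this
          exact this
        simp only [map_sum, smul_eval, e3, map_zero]
        set x := U.conjTranspose.mulVec w 0
        set y := U.conjTranspose.mulVec w 1
        set z := U.conjTranspose.mulVec w 2
        have e4 : ∑ j, v j * (z ^ 3 * (0 : Fin 4 → ℂ) j + z ^ 2 * q1 (l j) x y + z * q2 (q j) x y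
            + q3 (t j) x y) =
            z ^ 2 * x * (∑ j, v j * l j 0) + z ^ 2 * y * (∑ j, v j * l j 1) +
            z * x ^ 2 * (∑ j, v j * q j 0) + z * x * y * (∑ j, v j * q j 1) +
            z * y ^ 2 * (∑ j, v j * q j 2) +
            x ^ 3 * (∑ j, v j * t j 0) + x ^ 2 * y * (∑ j, v j * t j 1) +
            x * y ^ 2 * (∑ j, v j * t j 2) + y ^ 3 * (∑ j, v j * t j 3) := by
          simp only [Finset.mul_sum, ← Finset.sum_add_distrib]
          apply Finset.sum_congr rfl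
          intro j _
          simp only [q1, q2, q3, Pi.zero_apply]
          ring
        rw [e4]
        simp only [hl, hq, ht, mul_zero, add_zero]
      funext j
      exact Fintype.linearIndependent_iff.1 d.p_ind v e1 j
  have h2 : ∀ w : Fin 3 → ℂ, w ≠ 0 → ∃ j, eval w (d.p j) ≠ 0 := by
    intro w hw
    have hp := nsq_pos hw
    have hs : (0 : ℝ) < Real.sqrt (nsq w) := Real.sqrt_pos.2 hp
    obtain ⟨j, hj⟩ := h1 ((((Real.sqrt (nsq w))⁻¹ : ℝ) : ℂ) • w) (by
      rw [← nsq_eq, nsq_smul, inv_pow, Real.sq_sqrt hp.le, inv_mul_cancel₀ hp.ne']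
      simp)
    refine ⟨j, fun h => hj ?_⟩
    rw [eval_smul_hom (d.p_hom j), h, mul_zero]
  have hK : IsCompact {ζ : Fin 3 → ℂ | nsq ζ = 1} := by
    apply Metric.isCompact_of_isClosed_isBounded
    · apply isClosed_eq
      · unfold nsq
        fun_prop
      · exact continuous_const
    · apply (Metric.isBounded_closedBall (x := (0 : Fin 3 → ℂ)) (r := 1)).subset
      intro ζ hζ
      rw [mem_closedBall_zero_iff, pi_norm_le_iff_of_nonneg zero_le_one]
      intro k
      have h3 : ‖ζ k‖ ^ 2 ≤ 1 := by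
        rw [← (show nsq ζ = 1 from hζ)]
        exact Finset.single_le_sum (f := fun k => ‖ζ k‖ ^ 2)
          (fun _ _ => by positivity) (Finset.mem_univ k)
      nlinarith [norm_nonneg (ζ k)]
  obtain ⟨ζ, hζ, hmax⟩ := hK.exists_isMaxOn ⟨![0, 0, 1], by simp [nsq, Fin.sum_univ_three]⟩
    (f := fun w : Fin 3 → ℂ => ∑ j, ‖eval w (d.p j)‖ ^ 2)
    (Continuous.continuousOn (continuous_finsetSum _ fun j _ =>
      ((MvPolynomial.continuous_eval (d.p j)).norm.pow 2)))
  have hζ' : nsq ζ = 1 := hζ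
  have hζ1 : ∑ k, ζ k * star (ζ k) = 1 := by
    rw [← nsq_eq, hζ']
    simp
  have hb : ∀ w : Fin 3 → ℂ, w ≠ 0 → ∑ j, ‖eval w (d.p j)‖ ^ 2 ≤
      nsq w ^ 3 * ∑ j, ‖eval ζ (d.p j)‖ ^ 2 := by
    intro w hw
    have hp := nsq_pos hw
    have hs : (0 : ℝ) < Real.sqrt (nsq w) := Real.sqrt_pos.2 hp
    set s : ℝ := (Real.sqrt (nsq w))⁻¹ with hsdef
    have hs2 : s ^ 2 = (nsq w)⁻¹ := by rw [hsdef, inv_pow, Real.sq_sqrt hp.le]
    have hmem : ((s : ℂ) • w) ∈ {ζ : Fin 3 → ℂ | nsq ζ = 1} := by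
      show nsq ((s : ℂ) • w) = 1
      rw [nsq_smul, hs2, inv_mul_cancel₀ hp.ne']
    have h3 : ∑ j, ‖eval ((s : ℂ) • w) (d.p j)‖ ^ 2 ≤ ∑ j, ‖eval ζ (d.p j)‖ ^ 2 := hmax hmem
    have h4 : ∑ j, ‖eval ((s : ℂ) • w) (d.p j)‖ ^ 2 = (s ^ 2) ^ 3 * ∑ j, ‖eval w (d.p j)‖ ^ 2 := by
      rw [Finset.mul_sum]
      apply Finset.sum_congr rfl
      intro j _
      rw [eval_smul_hom (d.p_hom j), norm_mul, norm_pow, Complex.norm_real, mul_pow,
        Real.norm_eq_abs, ← pow_mul, mul_comm (2 + 1) 2, pow_mul, sq_abs]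
    rw [h4, hs2] at h3
    have h5 : nsq w ^ 3 * ((nsq w)⁻¹ ^ 3 * ∑ j, ‖eval w (d.p j)‖ ^ 2) ≤
        nsq w ^ 3 * ∑ j, ‖eval ζ (d.p j)‖ ^ 2 :=
      mul_le_mul_of_nonneg_left h3 (by positivity)
    rwa [← mul_assoc, ← mul_pow, mul_inv_cancel₀ hp.ne', one_pow, one_mul] at h5
  obtain ⟨U, c, l, q, t, hU, hUζ, hS, hE⟩ := hN r d ζ hζ1
  have hU2 : U * U.conjTranspose = 1 := mul_eq_one_comm.1 hU
  have hinj : ∀ v : Fin 3 → ℂ, v ≠ 0 → U.mulVec v ≠ 0 := by
    intro v hv h0
    apply hv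
    have : U.conjTranspose.mulVec (U.mulVec v) = v := by
      rw [Matrix.mulVec_mulVec, hU, Matrix.one_mulVec]
    rw [← this, h0, Matrix.mulVec_zero]
  have hcj : ∀ j, eval ζ (d.p j) = c j := by
    intro j
    have := hE j 0 0 1
    rw [hUζ] at this
    simpa [q1, q2, q3] using this
  have hineq : ∀ x y : ℂ, ∑ j, ‖c j + q1 (l j) x y + q2 (q j) x y + q3 (t j) x y‖ ^ 2 ≤
      (‖x‖ ^ 2 + ‖y‖ ^ 2 + 1) ^ 3 * ∑ j, ‖c j‖ ^ 2 := by
    intro x y
    have hv : (![x, y, 1] : Fin 3 → ℂ) ≠ 0 := by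
      intro h
      have := congrFun h 2
      simp at this
    have h3 := hb _ (hinj _ hv)
    rw [nsq_unitary U hU] at h3
    have h4 : nsq (![x, y, 1] : Fin 3 → ℂ) = ‖x‖ ^ 2 + ‖y‖ ^ 2 + 1 := by
      simp [nsq, Fin.sum_univ_three]
    rw [h4] at h3
    simp only [hcj] at h3
    refine le_trans (le_of_eq ?_) h3
    apply Finset.sum_congr rfl
    intro j _
    rw [hE j x y 1]
    simp
  refine hC c l q t hS ?_ ?_ ?_
  · intro hc
    obtain ⟨j, hj⟩ := h1 ζ hζ1
    apply hj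
    rw [hcj, hc]
    rfl
  · intro i
    fin_cases i
    · refine first_order c (fun j => l j 0) (fun j => q j 0) (fun j => t j 0) ?_
      intro x
      have := hineq x 0
      simpa [q1, q2, q3] using this
    · refine first_order c (fun j => l j 1) (fun j => q j 2) (fun j => t j 3) ?_
      intro x
      have := hineq 0 x
      simpa [q1, q2, q3] using this
  · intro x y hxy
    have hv : (![x, y, 0] : Fin 3 → ℂ) ≠ 0 := by
      intro h
      have h3 := congrFun h 0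
      have h4 := congrFun h 1
      simp at h3 h4
      rcases hxy with h5 | h5
      · exact h5 h3
      · exact h5 h4
    obtain ⟨j, hj⟩ := h2 _ (hinj _ hv)
    refine ⟨j, fun h => hj ?_⟩
    rw [hE j x y 0, h]
    simp

end Pool.Agent.W2helper47.SOS
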